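import Pool.Agent.Helper7.GPat

set_option autoImplicit false
open Set Pool.Agent.MP7c5cdb Filter Pool.Agent.Helper7.GDom
open scoped Topology

namespace Pool.Agent.Helper7.GPat

variable {G : Type} [AddCommGroup G]

namespace Pat

variable {D : Des} {Row : Type} (T : Pat D G Row) [Fintype Row] [DecidableEq Row]

/-- The complex base matrix. -/
noncomputable def base (θ : D.Var → ℝ) (r : Row) : D.Col → ℂ
  | .inl v => cent (T.see r (.inl v.1)) (θ (.inl v))
  | .inr (.inl c) =>
      if T.Loser c then cquo (T.see r (.inr (.inl c.1))) (θ (.inl (D.mainOf c)))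
      else cent (T.see r (.inr (.inl c.1))) (θ (.inl (D.mainOf c))) -
          cent (T.see r (.inl (D.comp c.1))) (θ (.inl (D.mainOf c)))
  | .inr (.inr c) => cent (T.see r (.inr (.inr c.1))) (θ (.inr c))

omit [Fintype Row] [DecidableEq Row] in
lemma see_eq_of_lt {r : Row} {g : Fin D.Γ} (h : g.castSucc < T.rlab r) :
    T.see r (.inr (.inl g)) = T.see r (.inl (D.comp g)) := by
  unfold rlab at h
  cases hl : T.lab r with
  | inl g' =>
    rw [hl] at h
    exact T.grp_lt r g' g hl (by simpa using h)
  | inr j => exact T.top_grp r j g hl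

omit [Fintype Row] [DecidableEq Row] in
lemma see_of_eq {r : Row} {g : Fin D.Γ} (h : T.rlab r = g.castSucc) :
    (T.see r (.inr (.inl g)) = some (0, T.num r) ∧ T.see r (.inl (D.comp g)) = none) ∨
    (T.see r (.inr (.inl g)) = none ∧ T.see r (.inl (D.comp g)) = some (0, T.num r)) := by
  unfold rlab at h
  cases hl : T.lab r with
  | inl g' =>
    rw [hl] at h
    have : g' = g := by simpa using h
    subst this
    exact T.grp_self r g' hl
  | inr j =>
    rw [hl] at h
    exact absurd h.symm (Fin.castSucc_lt_last g).ne

omit [Fintype Row] [DecidableEq Row] in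
lemma lab_of_last {r : Row} (h : T.rlab r = Fin.last _) : ∃ j, T.lab r = .inr j := by
  unfold rlab at h
  cases hl : T.lab r with
  | inl g' =>
    rw [hl] at h
    exact absurd h (Fin.castSucc_lt_last g').ne
  | inr j => exact ⟨j, rfl⟩

/-- A decided column which is not a loser vanishes on the rows of later blocks. -/
lemma stg_eq_zero {θ : D.Var → ℝ} {ε : ℕ → ℝ} {p : ℕ} {r : Row} {c : D.Grp}
    (hp : ¬ (D.Spec c ∧ p ≤ D.code c)) (hL : ¬ T.Loser c) (h : c.1.castSucc < T.rlab r) :
    T.stg θ ε p r (.inr (.inl c)) = 0 := by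
  unfold stg
  simp only
  rw [if_neg hp, if_neg hL, T.see_eq_of_lt h, sub_self]

lemma quo_zero_some (n : ℤ) (t : ℝ) :
    quo (some ((0 : G), n)) t 0 = AddMonoidAlgebra.single 0 (cquo (some ((0 : G), n)) t) := by
  rw [quo_zero]
  rfl

/-- On the diagonal blocks the base matrix has no Bloch exponents. -/
lemma stg_last_eq {θ : D.Var → ℝ} {ε : ℕ → ℝ} {r : Row} {c : D.Col}
    (h : T.rlab r = T.blab c) :
    T.stg θ ε (D.Γ * D.Λ) r c = AddMonoidAlgebra.single 0 (T.base θ r c) := by
  have hsp : ∀ c : D.Grp, ¬ (D.Spec c ∧ D.Γ * D.Λ ≤ D.code c) := fun c hc =>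
    absurd (D.code_lt hc.1) (not_lt.2 hc.2)
  rcases c with v | c | e
  · obtain ⟨j, hj⟩ := T.lab_of_last h
    unfold stg base
    simp only
    rw [T.top_root r j v.1 hj]
    split_ifs <;> simp [ent, cent]
  · by_cases hL : T.Loser c
    · have h' : T.rlab r = Fin.last _ := by
        rw [h]
        simp [blab, hL]
      obtain ⟨j, hj⟩ := T.lab_of_last h'
      unfold stg base
      simp only
      rw [if_neg (hsp c), if_pos hL, if_pos hL, T.top_grp r j c.1 hj, T.top_root r j _ hj]
      split_ifs
      · exact quo_zero_some _ _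
      · simp [quo, cquo]
    · have h' : T.rlab r = c.1.castSucc := by
        rw [h]
        simp [blab, hL]
      unfold stg base
      simp only
      rw [if_neg (hsp c), if_neg hL, if_neg hL]
      rcases T.see_of_eq h' with ⟨h1, h2⟩ | ⟨h1, h2⟩
      · rw [h1, h2]
        simp [ent, cent]
      · rw [h1, h2]
        simp [ent, cent]
  · obtain ⟨j, hj⟩ := T.lab_of_last h
    unfold stg base
    simp only
    rcases T.top_link r j e.1 hj with h1 | h1
    · rw [h1]
      simp [ent, cent]
    · rw [h1]
      simp [ent, cent]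

/-- The base matrix is block triangular. -/
lemma stg_last_triang {θ : D.Var → ℝ} {ε : ℕ → ℝ} {r : Row} {c : D.Col}
    (h : T.blab c < T.rlab r) : T.stg θ ε (D.Γ * D.Λ) r c = 0 := by
  have hsp : ∀ c : D.Grp, ¬ (D.Spec c ∧ D.Γ * D.Λ ≤ D.code c) := fun c hc =>
    absurd (D.code_lt hc.1) (not_lt.2 hc.2)
  rcases c with v | c | e
  · exact absurd h (not_lt.2 (Fin.le_last _))
  · by_cases hL : T.Loser c
    · have h1 : T.blab (.inr (.inl c)) = Fin.last _ := by simp [blab, hL]
      rw [h1] at h
      exact absurd h (not_lt.2 (Fin.le_last _))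
    · have h1 : T.blab (.inr (.inl c)) = c.1.castSucc := by simp [blab, hL]
      rw [h1] at h
      exact T.stg_eq_zero (hsp c) hL h
  · exact absurd h (not_lt.2 (Fin.le_last _))

lemma det_stg_last {θ : D.Var → ℝ} {ε : ℕ → ℝ} (σ : D.Col ≃ Row)
    (hσ : ∀ c, T.rlab (σ c) = T.blab c) :
    (Matrix.of fun c c' => T.stg θ ε (D.Γ * D.Λ) (σ c) c').det =
      AddMonoidAlgebra.single 0
        (∏ a, ((Matrix.of fun c c' => T.base θ (σ c) c').toSquareBlock T.blab a).det) := by
  have htri : (Matrix.of fun c c' => T.stg θ ε (D.Γ * D.Λ) (σ c) c').BlockTriangular T.blab := by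
    intro c c' hlt
    rw [Matrix.of_apply]
    exact T.stg_last_triang (by rw [hσ]; exact hlt)
  rw [htri.det_fintype]
  have hf : ∀ x : ℂ, AddMonoidAlgebra.single (0 : G) x =
      (AddMonoidAlgebra.singleZeroRingHom : ℂ →+* AddMonoidAlgebra ℂ G) x := fun _ => rfl
  rw [hf, map_prod]
  refine Finset.prod_congr rfl (fun a _ => ?_)
  rw [RingHom.map_det]
  congr 1
  ext i j
  simp only [Matrix.toSquareBlock_def, Matrix.of_apply, RingHom.mapMatrix_apply, Matrix.map_apply]
  rw [← hf]
  congr 1
  rw [T.stg_last_eq (by rw [hσ, i.2, j.2])]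

lemma det_mat_eq {θ : D.Var → ℝ} {ε : ℕ → ℝ} (σ : D.Col ≃ Row) :
    (Matrix.of fun c c' => T.stg θ ε 0 (σ c) c').det =
      (Matrix.of fun c c' => T.mat θ ε (σ c) c').det := by
  classical
  refine det_colop _ _ (fun v x => match x with
    | .inl c => if D.mainOf c = v then 1 else 0
    | .inr _ => 0) ?_ ?_
  · intro i v
    rfl
  · intro i x
    rcases x with c | e
    · simp only [mul_ite, mul_one, mul_zero, Finset.sum_ite_eq, Finset.mem_univ, if_true,
        Matrix.of_apply]
      unfold stg mat Des.pos Des.par
      simp only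
      by_cases hs : D.Spec c
      · simp only [hs, Nat.zero_le, and_self, if_true]
        rfl
      · have hL : ¬ T.Loser c := fun h => hs h.1
        simp only [hs, false_and, if_false, hL, add_zero]
        rfl
    · simp only [mul_zero, Finset.sum_const_zero, sub_zero, Matrix.of_apply]
      rfl

/-- Columns which are not touched when the perturbation `p` is switched on. -/
lemma stg_update_of_ne {θ : D.Var → ℝ} {ε : ℕ → ℝ} {p : ℕ} {t : ℝ} {r : Row} {c : D.Col}
    (hc : ∀ c0 : D.Grp, c = .inr (.inl c0) → D.Spec c0 → D.code c0 ≠ p) :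
    T.stg θ (Function.update ε p t) p r c = T.stg θ ε (p + 1) r c := by
  rcases c with v | c | e
  · rfl
  · have h1 := hc c rfl
    unfold stg
    simp only
    by_cases hs : D.Spec c
    · have h2 := h1 hs
      by_cases hp : p ≤ D.code c
      · have hp' : p + 1 ≤ D.code c := by omega
        rw [if_pos ⟨hs, hp⟩, if_pos ⟨hs, hp'⟩, Function.update_of_ne h2]
      · have e1 : ¬ (D.Spec c ∧ p ≤ D.code c) := fun h => hp h.2
        have e2 : ¬ (D.Spec c ∧ p + 1 ≤ D.code c) := fun h => hp (by omega)
        rw [if_neg e1, if_neg e2]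
    · have e1 : ¬ (D.Spec c ∧ p ≤ D.code c) := fun h => hs h.1
      have e2 : ¬ (D.Spec c ∧ p + 1 ≤ D.code c) := fun h => hs h.1
      rw [if_neg e1, if_neg e2]
  · rfl

lemma stg_update_self {θ : D.Var → ℝ} {ε : ℕ → ℝ} {t : ℝ} {r : Row} {c : D.Grp}
    (hs : D.Spec c) :
    T.stg θ (Function.update ε (D.code c) t) (D.code c) r (.inr (.inl c)) =
      ent (T.see r (.inr (.inl c.1))) (θ (.inl (D.mainOf c)) + t) -
          ent (T.see r (.inl (D.comp c.1))) (θ (.inl (D.mainOf c))) := by
  unfold stg
  simp only
  rw [if_pos ⟨hs, le_rfl⟩, Function.update_self]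

/-- One step of the hierarchy. -/
theorem step (σ : D.Col ≃ Row) (hσ : ∀ c, T.rlab (σ c) = T.blab c) (θ : D.Var → ℝ)
    (ε : ℕ → ℝ) (p : ℕ) :
    ∃ f ∈ CC (G := G),
      f 0 = (Matrix.of fun c c' => T.stg θ ε (p + 1) (σ c) c').det ∧
      ∀ t, t ≠ 0 →
        ((Matrix.of fun c c' => T.stg θ (Function.update ε p t) p (σ c) c').det = f t ∨
         (Matrix.of fun c c' => T.stg θ (Function.update ε p t) p (σ c) c').det =
          AddMonoidAlgebra.single 0 (t : ℂ) * f t) := by
  classical
  by_cases hex : ∃ c0 : D.Grp, D.Spec c0 ∧ D.code c0 = p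
  · obtain ⟨c0, hs, rfl⟩ := hex
    have hne : ∀ (t : ℝ) (r : Row) (c : D.Col), c ≠ .inr (.inl c0) →
        T.stg θ (Function.update ε (D.code c0) t) (D.code c0) r c =
          T.stg θ ε (D.code c0 + 1) r c := by
      intro t r c hc
      refine T.stg_update_of_ne (fun c1 h1 h2 h3 => hc ?_)
      rw [h1, D.code_inj h2 hs h3]
    by_cases hL : T.Loser c0
    · -- loser
      set N : Matrix D.Col D.Col (AddMonoidAlgebra ℂ G) :=
        Matrix.of fun c c' => T.stg θ ε (D.code c0 + 1) (σ c) c' with hN
      set u : D.Col → AddMonoidAlgebra ℂ G := fun c =>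
        ent (T.see (σ c) (.inr (.inl c0.1))) (θ (.inl (D.mainOf c0))) -
          ent (T.see (σ c) (.inl (D.comp c0.1))) (θ (.inl (D.mainOf c0))) with hu
      set q : ℝ → D.Col → AddMonoidAlgebra ℂ G := fun t c =>
        quo (T.see (σ c) (.inr (.inl c0.1))) (θ (.inl (D.mainOf c0))) t with hq
      have hcol : ∀ c, N c (.inr (.inl c0)) = q 0 c := by
        intro c
        simp only [hN, hq, Matrix.of_apply]
        unfold stg
        simp only
        rw [if_neg (fun h => by omega), if_pos hL]
      refine ⟨fun t => (N.updateCol (.inr (.inl c0)) (q t)).det, ?_, ?_, ?_⟩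
      · refine det_mem _ (fun i j => ?_)
        by_cases hj : j = .inr (.inl c0)
        · subst hj
          simp only [Matrix.updateCol_self]
          exact quo_mem _ _
        · simp only [Matrix.updateCol_ne hj]
          exact const_mem _
      · refine congrArg Matrix.det (Matrix.ext fun i j => ?_)
        by_cases hj : j = .inr (.inl c0)
        · subst hj
          rw [Matrix.updateCol_self, hcol]
        · rw [Matrix.updateCol_ne hj]
      · intro t ht
        right
        have h1 : (Matrix.of fun c c' =>
            T.stg θ (Function.update ε (D.code c0) t) (D.code c0) (σ c) c') =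
            N.updateCol (.inr (.inl c0)) (u + (AddMonoidAlgebra.single (0 : G) (t : ℂ)) • q t) := by
          refine Matrix.ext fun i j => ?_
          by_cases hj : j = .inr (.inl c0)
          · subst hj
            rw [Matrix.updateCol_self, Matrix.of_apply, T.stg_update_self hs, ent_sub]
            simp only [hu, hq, Pi.add_apply, Pi.smul_apply, smul_eq_mul]
            ring
          · rw [Matrix.updateCol_ne hj, Matrix.of_apply, hne t _ _ hj]
            rfl
        rw [h1, Matrix.det_updateCol_add, Matrix.det_updateCol_smul]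
        have h0 : (N.updateCol (.inr (.inl c0)) u).det = 0 := by
          refine det_eq_zero_of_card_lt _
            (Finset.univ.filter (fun c => T.blab c ≤ c0.1.castSucc))
            (insert (.inr (.inl c0)) (Finset.univ.filter (fun c => T.blab c ≤ c0.1.castSucc)))
            ?_ ?_
          · rw [Finset.card_insert_of_notMem]
            · exact Nat.lt_succ_self _
            · intro h
              have h2 := (Finset.mem_filter.1 h).2
              simp only [blab, hL, if_true] at h2
              exact absurd h2 (not_le.2 (Fin.castSucc_lt_last _))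
          · intro i j hj hi
            have hi' : c0.1.castSucc < T.rlab (σ i) := by
              rw [hσ]
              by_contra hcon
              exact hi (Finset.mem_filter.2 ⟨Finset.mem_univ _, not_lt.1 hcon⟩)
            rcases Finset.mem_insert.1 hj with rfl | hj
            · rw [Matrix.updateCol_self]
              simp only [hu]
              rw [T.see_eq_of_lt hi', sub_self]
            · have hj2 := (Finset.mem_filter.1 hj).2
              have hjne : j ≠ .inr (.inl c0) := by
                rintro rfl
                simp only [blab, hL, if_true] at hj2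
                exact absurd hj2 (not_le.2 (Fin.castSucc_lt_last _))
              rw [Matrix.updateCol_ne hjne]
              rcases j with v | c | e
              · exact absurd hj2 (not_le.2 (Fin.castSucc_lt_last _))
              · have hLc : ¬ T.Loser c := by
                  intro h
                  simp only [blab, h, if_true] at hj2
                  exact absurd hj2 (not_le.2 (Fin.castSucc_lt_last _))
                simp only [blab, hLc, if_false] at hj2
                have hle : c.1 ≤ c0.1 := by simpa using hj2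
                rw [hN, Matrix.of_apply]
                refine T.stg_eq_zero ?_ hLc (lt_of_le_of_lt hj2 hi')
                rintro ⟨hsc, hpc⟩
                have hw : c.2.1 < T.win c.1 := by
                  by_contra hcon
                  exact hLc ⟨hsc, not_lt.1 hcon⟩
                rcases lt_or_eq_of_le hle with h3 | h3
                · have := D.code_lt_of_fst_lt hsc h3
                  omega
                · have h4 : T.win c.1 ≤ c0.2.1 := by
                    rw [h3]
                    exact hL.2
                  have h5 : D.code c < D.code c0 := by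
                    simp only [Des.code, h3]
                    omega
                  omega
              · exact absurd hj2 (not_le.2 (Fin.castSucc_lt_last _))
        rw [h0, zero_add]
    · -- winner
      refine ⟨fun t => (Matrix.of fun c c' =>
        T.stg θ (Function.update ε (D.code c0) t) (D.code c0) (σ c) c').det, ?_, ?_,
        fun t _ => Or.inl rfl⟩
      · refine det_mem _ (fun i j => ?_)
        by_cases hj : j = .inr (.inl c0)
        · subst hj
          simp only [Matrix.of_apply, T.stg_update_self hs]
          exact Subring.sub_mem _ (ent_mem _ _) (const_mem _)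
        · simp only [Matrix.of_apply, hne _ _ _ hj]
          exact const_mem _
      · refine congrArg Matrix.det (Matrix.ext fun i j => ?_)
        by_cases hj : j = .inr (.inl c0)
        · subst hj
          rw [Matrix.of_apply, Matrix.of_apply, T.stg_update_self hs]
          unfold stg
          simp only
          rw [if_neg (fun h => by omega), if_neg hL, add_zero]
        · rw [Matrix.of_apply, Matrix.of_apply, hne _ _ _ hj]
  · push Not at hex
    refine ⟨fun _ => (Matrix.of fun c c' => T.stg θ ε (p + 1) (σ c) c').det, const_mem _, rfl,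
      fun t _ => Or.inl ?_⟩
    refine congrArg Matrix.det (Matrix.ext fun i j => ?_)
    rw [Matrix.of_apply, Matrix.of_apply]
    exact T.stg_update_of_ne (fun c0 _ h2 => hex c0 h2)

lemma domAt_single {z : ℂ} (hz : z ≠ 0) : DomAt (AddMonoidAlgebra.single (0 : G) z) :=
  ⟨0, z, 0, by simp, by simpa using hz⟩

/-- **Row D1.** If all diagonal blocks are nonsingular at `θ`, the perturbations can be chosen such
that the determinants of all patterns have a dominant coefficient. -/
theorem exists_eps {I : Type*} [Finite I] (T : I → Pat D G Row) (θ : D.Var → ℝ)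
    (σ : I → (D.Col ≃ Row)) (hσ : ∀ i c, (T i).rlab (σ i c) = (T i).blab c)
    (hblock : ∀ i a, ((Matrix.of fun c c' => (T i).base θ (σ i c) c').toSquareBlock
      (T i).blab a).det ≠ 0) {η : ℝ} (hη : 0 < η) :
    ∃ ε : ℕ → ℝ, (∀ q, 0 < ε q ∧ ε q < η) ∧
      ∀ i, DomAt (Matrix.of fun c c' => (T i).mat θ ε (σ i c) c').det := by
  obtain ⟨ε, hε, hD⟩ := hierarchy (G := G) (D.Γ * D.Λ)
    (fun (i : I) p ε => (Matrix.of fun c c' => (T i).stg θ ε p (σ i c) c').det)
    (fun i ε => by
      rw [(T i).det_stg_last (σ i) (hσ i)]
      exact domAt_single (Finset.prod_ne_zero_iff.2 (fun a _ => hblock i a)))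
    (fun i p ε _ => (T i).step (σ i) (hσ i) θ ε p) hη
  refine ⟨ε, hε, fun i => ?_⟩
  rw [← (T i).det_mat_eq (σ i)]
  exact hD i

/-- The same with a fixed enumeration of the columns. -/
theorem exists_eps' {I : Type*} [Finite I] (T : I → Pat D G Row) (θ : D.Var → ℝ)
    (σ : I → (D.Col ≃ Row)) (hσ : ∀ i c, (T i).rlab (σ i c) = (T i).blab c)
    (hblock : ∀ i a, ((Matrix.of fun c c' => (T i).base θ (σ i c) c').toSquareBlock
      (T i).blab a).det ≠ 0) (e : D.Col ≃ Row) {η : ℝ} (hη : 0 < η) :
    ∃ ε : ℕ → ℝ, (∀ q, 0 < ε q ∧ ε q < η) ∧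
      ∀ i, DomAt (Matrix.of fun c c' => (T i).mat θ ε (e c) c').det := by
  obtain ⟨ε, hε, hD⟩ := exists_eps T θ σ hσ hblock hη
  refine ⟨ε, hε, fun i => ?_⟩
  have h1 : (Matrix.of fun c c' => (T i).mat θ ε (e c) c') =
      (Matrix.of fun c c' => (T i).mat θ ε (σ i c) c').submatrix (e.trans (σ i).symm) id := by
    refine Matrix.ext fun c c' => ?_
    simp
  have h2 := hD i
  rw [h1, Matrix.det_permute (e.trans (σ i).symm)]
  rcases Int.units_eq_one_or (Equiv.Perm.sign (e.trans (σ i).symm)) with h3 | h3
  · rw [h3]
    simpa using h2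
  · rw [h3]
    have h4 := domAt_smul (G := G) (c := -1) (by norm_num) h2
    have h5 : (AddMonoidAlgebra.single (0 : G) (-1 : ℂ)) = -1 := by
      rw [AddMonoidAlgebra.one_def, ← AddMonoidAlgebra.single_neg]
    rw [h5] at h4
    simpa using h4

end Pat

end Pool.Agent.Helper7.GPat
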