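import Pool.Agent.MP_7c5cdb.Unfold

set_option autoImplicit false
open MeasureTheory Set Pool.Agent.MP7c5cdb
open scoped ENNReal Pointwise Topology

namespace Pool.Agent.Helper7.GCount

variable {d : ℕ}

/-- A connected set meeting `W` and its complement meets the frontier of `W`. -/
lemma exists_frontier {E : Type*} [TopologicalSpace E] {W t : Set E} (ht : IsPreconnected t)
    {a b : E} (ha : a ∈ t) (haW : a ∈ W) (hb : b ∈ t) (hbW : b ∉ W) : ∃ w ∈ t, w ∈ frontier W := by
  by_contra h
  push Not at h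
  have hsub : t ⊆ interior W ∪ interior Wᶜ := by
    intro w hw
    have h1 := h w hw
    rw [frontier, mem_sdiff, not_and_or, not_not] at h1
    rcases h1 with h1 | h1
    · right
      rw [interior_compl]
      exact h1
    · left
      exact h1
  have hdis : Disjoint (interior W) (interior Wᶜ) := by
    rw [interior_compl]
    exact Set.disjoint_compl_right_iff_subset.2 (interior_subset.trans subset_closure)
  rcases ht.subset_or_subset isOpen_interior isOpen_interior hdis hsub with h1 | h1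
  · exact hbW (interior_subset (h1 hb))
  · exact (interior_subset (h1 ha)) haW

/-- The rows of the fibre over `x` in `Z`. -/
def idx (Z : Set (Fin d → ℝ)) (x : Fin d → ℝ) : Set (Fin d → ℤ) := {p | x + zv p ∈ Z}

lemma idx_finite {Z : Set (Fin d → ℝ)} (hb : Bornology.IsBounded Z) (x : Fin d → ℝ) :
    (idx Z x).Finite := by
  obtain ⟨C, hC⟩ := hb.subset_closedBall 0
  refine (Set.finite_Icc (fun i => ⌈-C - x i⌉) (fun i => ⌊C - x i⌋)).subset ?_
  intro p hp
  have h1 := hC hp
  rw [mem_closedBall_zero_iff] at h1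
  have h2 : ∀ i, |x i + (p i : ℝ)| ≤ C := by
    intro i
    have := (norm_le_pi_norm (x + zv p) i).trans h1
    simpa [zv] using this
  constructor
  · intro i
    rw [Int.ceil_le]
    linarith [(abs_le.1 (h2 i)).1]
  · intro i
    rw [Int.le_floor]
    linarith [(abs_le.1 (h2 i)).2]

/-- The cell of the row `p` in the fibre over `x`. -/
def cell (x : Fin d → ℝ) (p : Fin d → ℤ) : Set (Fin d → ℝ) := {y | y - x ∈ tcube p}

lemma measurableSet_cell (x : Fin d → ℝ) (p : Fin d → ℤ) : MeasurableSet (cell x p) :=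
  (measurableSet_tcube p).preimage (measurable_sub_const _)

lemma cell_disjoint (x : Fin d → ℝ) : Pairwise (Function.onFun Disjoint (cell x)) := by
  intro m n hmn
  have h := tcube_disjoint hmn
  rw [Function.onFun, Set.disjoint_left] at h ⊢
  intro y hy hy'
  exact h hy hy'

lemma volume_cube : volume (cube d) = 1 := by
  have : cube d = Set.pi Set.univ (fun _ => Ioc (0 : ℝ) (0 + 1)) := by
    ext x
    simp [cube]
  rw [this, volume_pi_pi]
  simp

lemma volume_cell (x : Fin d → ℝ) (p : Fin d → ℤ) : volume (cell x p) = 1 := by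
  have h : cell x p = (fun y => y + (-(x + zv p))) ⁻¹' (cube d) := by
    ext y
    simp only [cell, tcube, mem_ofPred_eq, mem_preimage]
    constructor
    · intro h
      convert h using 1
      abel
    · intro h
      convert h using 1
      abel
  rw [h, measure_preimage_add_right, volume_cube]

lemma dist_cell {x y : Fin d → ℝ} {p : Fin d → ℤ} (h : y ∈ cell x p) :
    dist y (x + zv p) ≤ 1 := by
  rw [dist_eq_norm, pi_norm_le_iff_of_nonneg zero_le_one]
  intro i
  have h1 := h i
  simp only [Pi.sub_apply, zv, mem_Ioc, zero_add] at h1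
  simp only [Pi.sub_apply, Pi.add_apply, zv, Real.norm_eq_abs]
  rw [abs_le]
  constructor <;> linarith [h1.1, h1.2]

lemma exists_cell (x y : Fin d → ℝ) : ∃ p, y ∈ cell x p := by
  have h : y - x ∈ (⋃ n : Fin d → ℤ, tcube n) := by
    rw [tcube_iUnion]
    trivial
  rw [Set.mem_iUnion] at h
  exact h

/-- The closed 1-neighbourhood of the frontier. -/
def fr (W : Set (Fin d → ℝ)) : Set (Fin d → ℝ) := {y | ∃ w ∈ frontier W, dist y w ≤ 1}

lemma mem_fr_of_cross {W : Set (Fin d → ℝ)} {y z a b : Fin d → ℝ} (hyz : dist y z ≤ 1)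
    (ha : a ∈ segment ℝ y z) (haW : a ∈ W) (hb : b ∈ segment ℝ y z) (hbW : b ∉ W) :
    y ∈ fr W := by
  obtain ⟨w, hw, hwW⟩ := exists_frontier (convex_segment y z).isPreconnected ha haW hb hbW
  refine ⟨w, hwW, ?_⟩
  have := segment_subset_closedBall_left y z hw
  rw [Metric.mem_closedBall, dist_comm] at this
  exact this.trans hyz

/-- Number of rows in `W` against the volume of `W`. -/
theorem count_vs_volume {W : Set (Fin d → ℝ)} (hb : Bornology.IsBounded W) (x : Fin d → ℝ) :
    ((idx W x).ncard : ℝ≥0∞) ≤ volume W + volume (fr W) ∧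
      volume W ≤ ((idx W x).ncard : ℝ≥0∞) + volume (fr W) := by
  classical
  set F := (idx_finite hb x).toFinset with hF
  have hcard : (idx W x).ncard = F.card := Set.ncard_eq_toFinset_card _ (idx_finite hb x)
  have hU : volume (⋃ p ∈ F, cell x p) = (F.card : ℝ≥0∞) := by
    rw [measure_biUnion_finset (fun p _ q _ hpq => cell_disjoint x hpq)
      (fun p _ => measurableSet_cell x p)]
    simp [volume_cell]
  rw [hcard, ← hU]
  constructor
  · refine (measure_mono ?_).trans (measure_union_le _ _)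
    intro y hy
    rw [Set.mem_iUnion₂] at hy
    obtain ⟨p, hp, hy⟩ := hy
    have hp1 : x + zv p ∈ W := by
      rw [hF, Set.Finite.mem_toFinset] at hp
      exact hp
    by_cases hyW : y ∈ W
    · exact Or.inl hyW
    · exact Or.inr (mem_fr_of_cross (dist_cell hy) (right_mem_segment ℝ _ _) hp1
        (left_mem_segment ℝ _ _) hyW)
  · refine (measure_mono ?_).trans (measure_union_le _ _)
    intro y hy
    obtain ⟨p, hp⟩ := exists_cell x y
    by_cases hpW : x + zv p ∈ W
    · left
      rw [Set.mem_iUnion₂]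
      refine ⟨p, ?_, hp⟩
      rw [hF, Set.Finite.mem_toFinset]
      exact hpW
    · exact Or.inr (mem_fr_of_cross (dist_cell hp) (left_mem_segment ℝ _ _) hy
        (right_mem_segment ℝ _ _) hpW)

lemma frontier_smul {R : ℝ} (hR : R ≠ 0) (Z : Set (Fin d → ℝ)) :
    frontier (R • Z) = R • frontier Z := by
  have := (Homeomorph.smulOfNeZero R hR (α := Fin d → ℝ)).image_frontier Z
  exact this.symm

lemma fr_smul_subset {R : ℝ} (hR : 0 < R) (Z : Set (Fin d → ℝ)) :
    fr (R • Z) ⊆ R • Metric.cthickening (1 / R) (frontier Z) := by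
  rintro y ⟨w, hw, hyw⟩
  rw [frontier_smul hR.ne'] at hw
  obtain ⟨v, hv, rfl⟩ := hw
  refine ⟨R⁻¹ • y, ?_, by simp [smul_smul, hR.ne']⟩
  refine Metric.mem_cthickening_of_dist_le _ v _ _ hv ?_
  have h1 : dist (R⁻¹ • y) v = R⁻¹ * dist y (R • v) := by
    have h2 : v = R⁻¹ • (R • v) := by simp [smul_smul, hR.ne']
    conv_lhs => rw [h2]
    rw [dist_smul₀, Real.norm_of_nonneg (inv_nonneg.2 hR.le)]
  rw [h1, one_div]
  calc R⁻¹ * dist y (R • v) ≤ R⁻¹ * 1 := by gcongr
    _ = R⁻¹ := mul_one _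

lemma volume_smul {R : ℝ} (hR : 0 ≤ R) (Z : Set (Fin d → ℝ)) :
    volume (R • Z) = ENNReal.ofReal (R ^ d) * volume Z := by
  rw [Measure.addHaar_smul, abs_of_nonneg (pow_nonneg hR _)]
  simp

/-- Uniform lattice point count in a dilated Jordan measurable set. -/
theorem count_smul {Z : Set (Fin d → ℝ)} (hb : Bornology.IsBounded Z)
    (hZ : volume (frontier Z) = 0) {ε : ℝ} (hε : 0 < ε) :
    ∃ R₀ : ℝ, 0 < R₀ ∧ ∀ R : ℝ, R₀ ≤ R → ∀ x : Fin d → ℝ, (idx (R • Z) x).Finite ∧
      |((idx (R • Z) x).ncard : ℝ) - R ^ d * (volume Z).toReal| ≤ ε * R ^ d := by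
  have hcl : frontier Z ⊆ closure Z := frontier_subset_closure
  have hcomp : IsCompact (frontier Z) :=
    Metric.isCompact_of_isClosed_isBounded isClosed_frontier (hb.closure.subset hcl)
  have hlim := tendsto_measure_cthickening_of_isCompact (μ := (volume : Measure (Fin d → ℝ))) hcomp
  rw [hZ] at hlim
  have hev : ∀ᶠ r in 𝓝 (0 : ℝ), volume (Metric.cthickening r (frontier Z)) < ENNReal.ofReal ε :=
    hlim.eventually (gt_mem_nhds (ENNReal.ofReal_pos.2 hε))
  rw [Metric.eventually_nhds_iff] at hev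
  obtain ⟨δ, hδ, hev⟩ := hev
  refine ⟨2 / δ, by positivity, fun R hR x => ?_⟩
  have hR0 : 0 < R := lt_of_lt_of_le (by positivity) hR
  have hb' : Bornology.IsBounded (R • Z) := hb.smul₀ R
  refine ⟨idx_finite hb' x, ?_⟩
  have hr : dist (1 / R) 0 < δ := by
    rw [Real.dist_eq, sub_zero, abs_of_pos (by positivity), div_lt_iff₀ hR0]
    have h1 : 2 ≤ R * δ := by rwa [div_le_iff₀ hδ] at hR
    linarith
  have hthin := hev hr
  have hfr : volume (fr (R • Z)) ≤ ENNReal.ofReal (ε * R ^ d) := by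
    calc volume (fr (R • Z)) ≤ volume (R • Metric.cthickening (1 / R) (frontier Z)) :=
          measure_mono (fr_smul_subset hR0 Z)
      _ = ENNReal.ofReal (R ^ d) * volume (Metric.cthickening (1 / R) (frontier Z)) :=
          volume_smul hR0.le _
      _ ≤ ENNReal.ofReal (R ^ d) * ENNReal.ofReal ε := by gcongr
      _ = ENNReal.ofReal (ε * R ^ d) := by
          rw [← ENNReal.ofReal_mul (pow_nonneg hR0.le _), mul_comm]
  obtain ⟨h1, h2⟩ := count_vs_volume hb' x
  have hvol : volume (R • Z) = ENNReal.ofReal (R ^ d * (volume Z).toReal) := by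
    rw [volume_smul hR0.le, ENNReal.ofReal_mul (pow_nonneg hR0.le _),
      ENNReal.ofReal_toReal hb.measure_lt_top.ne]
  have hv0 : 0 ≤ R ^ d * (volume Z).toReal := by positivity
  have he0 : 0 ≤ ε * R ^ d := by positivity
  rw [hvol] at h1 h2
  have h1' : ((idx (R • Z) x).ncard : ℝ) ≤ R ^ d * (volume Z).toReal + ε * R ^ d := by
    have h3 : ((idx (R • Z) x).ncard : ℝ≥0∞) ≤
        ENNReal.ofReal (R ^ d * (volume Z).toReal + ε * R ^ d) := by
      rw [ENNReal.ofReal_add hv0 he0]
      exact h1.trans (by gcongr)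
    rw [← ENNReal.ofReal_natCast] at h3
    exact (ENNReal.ofReal_le_ofReal_iff (by positivity)).1 h3
  have h2' : R ^ d * (volume Z).toReal ≤ ((idx (R • Z) x).ncard : ℝ) + ε * R ^ d := by
    have h3 : ENNReal.ofReal (R ^ d * (volume Z).toReal) ≤
        ENNReal.ofReal (((idx (R • Z) x).ncard : ℝ) + ε * R ^ d) := by
      rw [ENNReal.ofReal_add (Nat.cast_nonneg _) he0, ENNReal.ofReal_natCast]
      exact h2.trans (by gcongr)
    exact (ENNReal.ofReal_le_ofReal_iff (by positivity)).1 h3
  rw [abs_le]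
  constructor <;> linarith

/-- Uniform lattice point count on the fine lattice `(1/m) ℤ^d`. -/
theorem count_fine {Z : Set (Fin d → ℝ)} (hb : Bornology.IsBounded Z)
    (hZ : volume (frontier Z) = 0) {ε : ℝ} (hε : 0 < ε) :
    ∃ m₀ : ℕ, 0 < m₀ ∧ ∀ m : ℕ, m₀ ≤ m → ∀ x : Fin d → ℝ,
      {p : Fin d → ℤ | x + (1 / (m : ℝ)) • zv p ∈ Z}.Finite ∧
      |(({p : Fin d → ℤ | x + (1 / (m : ℝ)) • zv p ∈ Z}.ncard : ℕ) : ℝ) -
        (m : ℝ) ^ d * (volume Z).toReal| ≤ ε * (m : ℝ) ^ d := by
  obtain ⟨R₀, hR₀, H⟩ := count_smul hb hZ hε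
  refine ⟨⌈R₀⌉₊, Nat.ceil_pos.2 hR₀, fun m hm x => ?_⟩
  have hm' : R₀ ≤ (m : ℝ) := (Nat.le_ceil _).trans (by exact_mod_cast hm)
  have hm0 : (0 : ℝ) < m := hR₀.trans_le hm'
  have h := H m hm' ((m : ℝ) • x)
  have he : {p : Fin d → ℤ | x + (1 / (m : ℝ)) • zv p ∈ Z} = idx ((m : ℝ) • Z) ((m : ℝ) • x) := by
    ext p
    simp only [idx, mem_ofPred_eq]
    rw [Set.mem_smul_set_iff_inv_smul_mem₀ hm0.ne', smul_add, smul_smul,
      inv_mul_cancel₀ hm0.ne', one_smul, one_div]
  rw [he]
  exact h

/-- Jordan measurable: the frontier is a null set. -/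
lemma jordan_inter {A B : Set (Fin d → ℝ)} (hA : volume (frontier A) = 0)
    (hB : volume (frontier B) = 0) : volume (frontier (A ∩ B)) = 0 := by
  refine measure_mono_null ((frontier_inter_subset A B).trans ?_) (measure_union_null hA hB)
  exact Set.union_subset_union inter_subset_left inter_subset_right

lemma jordan_compl {A : Set (Fin d → ℝ)} (hA : volume (frontier A) = 0) :
    volume (frontier Aᶜ) = 0 := by
  rwa [frontier_compl]

lemma jordan_union {A B : Set (Fin d → ℝ)} (hA : volume (frontier A) = 0)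
    (hB : volume (frontier B) = 0) : volume (frontier (A ∪ B)) = 0 := by
  refine measure_mono_null ((frontier_union_subset A B).trans ?_) (measure_union_null hA hB)
  exact Set.union_subset_union inter_subset_left inter_subset_right

lemma jordan_diff {A B : Set (Fin d → ℝ)} (hA : volume (frontier A) = 0)
    (hB : volume (frontier B) = 0) : volume (frontier (A \ B)) = 0 := by
  rw [sdiff_eq]
  exact jordan_inter hA (jordan_compl hB)

lemma jordan_iUnion_finset {ι : Type*} (s : Finset ι) (A : ι → Set (Fin d → ℝ))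
    (hA : ∀ i ∈ s, volume (frontier (A i)) = 0) : volume (frontier (⋃ i ∈ s, A i)) = 0 := by
  classical
  induction s using Finset.induction_on with
  | empty => simp
  | insert a s ha ih =>
    rw [Finset.set_biUnion_insert]
    exact jordan_union (hA a (Finset.mem_insert_self _ _))
      (ih (fun i hi => hA i (Finset.mem_insert_of_mem hi)))

/-- Euclidean spheres are null sets. -/
lemma volume_eucl_sphere (z : Fin d → ℝ) {r : ℝ} (hr : 0 < r) :
    volume {y : Fin d → ℝ | ∑ i, (y i - z i) ^ 2 = r ^ 2} = 0 := by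
  have hmp := EuclideanSpace.volume_preserving_symm_measurableEquiv_toLp (Fin d)
  rw [← hmp.measure_preimage_equiv]
  have h : (⇑(MeasurableEquiv.toLp 2 (Fin d → ℝ)).symm ⁻¹'
      {y : Fin d → ℝ | ∑ i, (y i - z i) ^ 2 = r ^ 2}) =
      Metric.sphere (WithLp.toLp 2 z : EuclideanSpace ℝ (Fin d)) r := by
    ext y
    simp only [mem_preimage, mem_ofPred_eq, Metric.mem_sphere]
    rw [EuclideanSpace.dist_eq]
    simp only [Real.dist_eq, sq_abs]
    constructor
    · intro h1
      rw [show r = Real.sqrt (r ^ 2) from (Real.sqrt_sq hr.le).symm, ← h1]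
      rfl
    · intro h1
      rw [← h1, Real.sq_sqrt (Finset.sum_nonneg (fun i _ => sq_nonneg _))]
      rfl
  rw [h]
  exact Measure.addHaar_sphere_of_ne_zero _ _ hr.ne'

/-- The ball of the frozen statement. -/
def eball (z : Fin d → ℝ) (r : ℝ) : Set (Fin d → ℝ) := {y | ∑ i, (y i - z i) ^ 2 < r ^ 2}

lemma jordan_eball (z : Fin d → ℝ) {r : ℝ} (hr : 0 < r) :
    volume (frontier (eball z r)) = 0 := by
  refine measure_mono_null ?_ (volume_eucl_sphere z hr)
  exact frontier_lt_subset_eq (by fun_prop) (by fun_prop)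

lemma eball_bounded (z : Fin d → ℝ) {r : ℝ} (hr : 0 < r) :
    Bornology.IsBounded (eball z r) := by
  refine (Metric.isBounded_closedBall (x := z) (r := r)).subset ?_
  intro y hy
  rw [Metric.mem_closedBall, dist_eq_norm, pi_norm_le_iff_of_nonneg hr.le]
  intro i
  have h1 : (y i - z i) ^ 2 ≤ ∑ i, (y i - z i) ^ 2 :=
    Finset.single_le_sum (f := fun i => (y i - z i) ^ 2) (fun _ _ => sq_nonneg _)
      (Finset.mem_univ i)
  have h2 : (y i - z i) ^ 2 < r ^ 2 := lt_of_le_of_lt h1 hy
  rw [Pi.sub_apply, Real.norm_eq_abs]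
  exact (abs_lt_of_sq_lt_sq h2 hr.le).le

end Pool.Agent.Helper7.GCount
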