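import Pool.Agent.MP_7c5cdb.L2Act

set_option autoImplicit false
open Set Pool.Agent.MP7c5cdb Filter
open scoped Topology Classical

namespace Pool.Agent.Helper7.GDom

variable {G : Type} [AddCommGroup G]

/-- Generators: one coefficient, depending continuously on the parameter at `0`. -/
def Gen : Set (ℝ → AddMonoidAlgebra ℂ G) :=
  {f | ∃ (g : G) (c : ℝ → ℂ), ContinuousAt c 0 ∧ f = fun t => AddMonoidAlgebra.single g (c t)}

/-- The ring of families of Laurent polynomials of uniformly bounded support, continuous at `0`. -/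
noncomputable def CC : Subring (ℝ → AddMonoidAlgebra ℂ G) := Subring.closure Gen

lemma single_mem (g : G) {c : ℝ → ℂ} (hc : ContinuousAt c 0) :
    (fun t => AddMonoidAlgebra.single g (c t)) ∈ CC (G := G) :=
  Subring.subset_closure ⟨g, c, hc, rfl⟩

lemma closure_gen : (Submonoid.closure (Gen (G := G)) : Set (ℝ → AddMonoidAlgebra ℂ G)) = Gen := by
  apply Set.Subset.antisymm
  · intro f hf
    induction hf using Submonoid.closure_induction with
    | mem x hx => exact hx
    | one => exact ⟨0, fun _ => 1, continuousAt_const, rfl⟩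
    | mul x y _ _ hx hy =>
      obtain ⟨g, c, hc, rfl⟩ := hx
      obtain ⟨g', c', hc', rfl⟩ := hy
      refine ⟨g + g', fun t => c t * c' t, hc.mul hc', ?_⟩
      funext t
      rw [Pi.mul_apply, AddMonoidAlgebra.single_mul_single]
  · exact Submonoid.subset_closure

lemma mem_CC {f : ℝ → AddMonoidAlgebra ℂ G} (hf : f ∈ CC (G := G)) :
    (∃ S : Finset G, ∀ t, (f t).coeff.support ⊆ S) ∧
      ∀ g, ContinuousAt (fun t => (f t).coeff g) 0 := by
  classical
  rw [CC, Subring.mem_closure_iff, closure_gen] at hf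
  induction hf using AddSubgroup.closure_induction with
  | mem x hx =>
    obtain ⟨g, c, hc, rfl⟩ := hx
    refine ⟨⟨{g}, fun t => ?_⟩, fun g' => ?_⟩
    · rw [AddMonoidAlgebra.coeff_single]
      exact Finsupp.support_single_subset
    · simp only [AddMonoidAlgebra.coeff_single, Finsupp.single_apply]
      by_cases h : g = g'
      · simpa [h] using hc
      · simpa [h] using continuousAt_const
  | zero =>
    refine ⟨⟨∅, fun t => by simp⟩, fun g => by simpa using continuousAt_const⟩
  | add x y _ _ hx hy =>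
    obtain ⟨⟨S, hS⟩, h1⟩ := hx
    obtain ⟨⟨S', hS'⟩, h2⟩ := hy
    refine ⟨⟨S ∪ S', fun t => ?_⟩, fun g => ?_⟩
    · rw [Pi.add_apply, AddMonoidAlgebra.coeff_add]
      exact Finsupp.support_add.trans (Finset.union_subset_union (hS t) (hS' t))
    · have h3 : (fun t => ((x + y) t).coeff g) = fun t => (x t).coeff g + (y t).coeff g := by
        funext t
        simp
      rw [h3]
      exact (h1 g).add (h2 g)
  | neg x _ hx =>
    obtain ⟨⟨S, hS⟩, h1⟩ := hx
    refine ⟨⟨S, fun t => ?_⟩, fun g => ?_⟩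
    · rw [Pi.neg_apply, AddMonoidAlgebra.coeff_neg, Finsupp.support_neg]
      exact hS t
    · have h3 : (fun t => ((-x) t).coeff g) = fun t => -(x t).coeff g := by
        funext t
        simp
      rw [h3]
      exact (h1 g).neg

/-- A dominant coefficient, in terms of the coefficients. -/
lemma domAt_iff {φ : AddMonoidAlgebra ℂ G} {S : Finset G} (hS : φ.coeff.support ⊆ S) :
    DomAt φ ↔ ∃ g, ∑ h ∈ S.filter (fun h => h ≠ g), ‖φ.coeff h‖ < ‖φ.coeff g‖ := by
  classical
  constructor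
  · rintro ⟨g, z, ψ, hφ, hlt⟩
    refine ⟨g, ?_⟩
    have hval : ∀ h, φ.coeff h = (if g = h then z else 0) + ψ.coeff h := by
      intro h
      rw [hφ, AddMonoidAlgebra.coeff_add, AddMonoidAlgebra.coeff_single, Finsupp.add_apply,
        Finsupp.single_apply]
    have h1 : ∑ h ∈ S.filter (fun h => h ≠ g), ‖φ.coeff h‖ =
        ∑ h ∈ S.filter (fun h => h ≠ g), ‖ψ.coeff h‖ := by
      refine Finset.sum_congr rfl (fun h hh => ?_)
      rw [hval, if_neg (fun h2 => (Finset.mem_filter.1 hh).2 h2.symm), zero_add]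
    have h2 : ∑ h ∈ S.filter (fun h => h ≠ g), ‖ψ.coeff h‖ + ‖ψ.coeff g‖ ≤
        ∑ t ∈ ψ.coeff.support, ‖ψ.coeff t‖ := by
      have h3 : ∑ h ∈ S.filter (fun h => h ≠ g), ‖ψ.coeff h‖ + ‖ψ.coeff g‖ =
          ∑ h ∈ insert g (S.filter (fun h => h ≠ g)), ‖ψ.coeff h‖ := by
        rw [Finset.sum_insert (by simp), add_comm]
      rw [h3]
      have h4 : ∑ h ∈ insert g (S.filter (fun h => h ≠ g)), ‖ψ.coeff h‖ ≤
          ∑ h ∈ insert g (S.filter (fun h => h ≠ g)) ∪ ψ.coeff.support, ‖ψ.coeff h‖ :=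
        Finset.sum_le_sum_of_subset_of_nonneg Finset.subset_union_left
          (fun _ _ _ => norm_nonneg _)
      refine h4.trans (le_of_eq ?_)
      symm
      refine Finset.sum_subset Finset.subset_union_right (fun h _ hh => ?_)
      rw [Finsupp.notMem_support_iff.1 hh, norm_zero]
    rw [h1]
    have h5 : ‖z‖ ≤ ‖φ.coeff g‖ + ‖ψ.coeff g‖ := by
      rw [hval g, if_pos rfl]
      calc ‖z‖ = ‖(z + ψ.coeff g) - ψ.coeff g‖ := by ring_nf
        _ ≤ ‖z + ψ.coeff g‖ + ‖ψ.coeff g‖ := norm_sub_le _ _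
    linarith
  · rintro ⟨g, hg⟩
    refine ⟨g, φ.coeff g, φ.erase g, ?_, ?_⟩
    · apply AddMonoidAlgebra.coeff_injective
      rw [AddMonoidAlgebra.coeff_add, AddMonoidAlgebra.coeff_single,
        AddMonoidAlgebra.coeff_erase, Finsupp.single_add_erase]
    · refine lt_of_le_of_lt ?_ hg
      rw [AddMonoidAlgebra.coeff_erase]
      have h1 : ∀ t ∈ (φ.coeff.erase g).support, ‖(φ.coeff.erase g) t‖ = ‖φ.coeff t‖ := by
        intro t ht
        rw [Finsupp.support_erase, Finset.mem_erase] at ht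
        rw [Finsupp.erase_ne ht.1]
      rw [Finset.sum_congr rfl h1]
      refine Finset.sum_le_sum_of_subset_of_nonneg ?_ (fun _ _ _ => norm_nonneg _)
      intro t ht
      rw [Finsupp.support_erase, Finset.mem_erase] at ht
      exact Finset.mem_filter.2 ⟨hS ht.2, ht.1⟩

/-- Having a dominant coefficient is an open condition. -/
theorem eventually_domAt {f : ℝ → AddMonoidAlgebra ℂ G} (hf : f ∈ CC (G := G))
    (h0 : DomAt (f 0)) : ∀ᶠ t in 𝓝 (0 : ℝ), DomAt (f t) := by
  obtain ⟨⟨S, hS⟩, hc⟩ := mem_CC hf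
  obtain ⟨g, hg⟩ := (domAt_iff (hS 0)).1 h0
  have h1 : ContinuousAt (fun t => ∑ h ∈ S.filter (fun h => h ≠ g), ‖(f t).coeff h‖) 0 :=
    tendsto_finsetSum _ (fun h _ => (hc h).norm)
  have h2 : ContinuousAt (fun t => ‖(f t).coeff g‖) 0 := (hc g).norm
  filter_upwards [h1.eventually_lt h2 hg] with t ht
  exact (domAt_iff (hS t)).2 ⟨g, ht⟩

/-- A dominant coefficient survives multiplication by nonzero scalars. -/
lemma domAt_smul {φ : AddMonoidAlgebra ℂ G} {c : ℂ} (hc : c ≠ 0) (h : DomAt φ) :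
    DomAt (AddMonoidAlgebra.single 0 c * φ) := by
  classical
  have hval : ∀ g, (AddMonoidAlgebra.single (0 : G) c * φ).coeff g = c * φ.coeff g := by
    intro g
    simp
  have hsup : (AddMonoidAlgebra.single (0 : G) c * φ).coeff.support ⊆ φ.coeff.support := by
    intro g hg
    rw [Finsupp.mem_support_iff, hval] at hg
    rw [Finsupp.mem_support_iff]
    exact right_ne_zero_of_mul hg
  obtain ⟨g, hg⟩ := (domAt_iff (Finset.Subset.refl _)).1 h
  refine (domAt_iff hsup).2 ⟨g, ?_⟩
  simp only [hval, norm_mul]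
  rw [← Finset.mul_sum]
  exact mul_lt_mul_of_pos_left hg (norm_pos_iff.2 hc)

/-- The determinant of a family of matrices with entries in `CC`. -/
lemma det_mem {n : Type*} [Fintype n] [DecidableEq n] (M : ℝ → Matrix n n (AddMonoidAlgebra ℂ G))
    (hM : ∀ i j, (fun t => M t i j) ∈ CC (G := G)) : (fun t => (M t).det) ∈ CC (G := G) := by
  have h : (fun t => (M t).det) =
      ∑ σ : Equiv.Perm n, ((Equiv.Perm.sign σ : ℤ) • ∏ i, (fun t => M t (σ i) i)) := by
    funext t
    rw [Matrix.det_apply]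
    simp only [Finset.sum_apply, Pi.smul_apply, Finset.prod_apply]
    refine Finset.sum_congr rfl (fun σ _ => ?_)
    rw [Units.smul_def]
  rw [h]
  exact Subring.sum_mem _ (fun σ _ => Subring.zsmul_mem _ (Subring.prod_mem _ (fun i _ => hM _ _)) _)

/-- If more than `|T|` columns are supported on the rows in `T`, the determinant vanishes. -/
theorem det_eq_zero_of_card_lt {R : Type*} [CommRing R] {n : Type*} [Fintype n] [DecidableEq n]
    (M : Matrix n n R) (T C : Finset n) (hcard : T.card < C.card)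
    (h : ∀ i j, j ∈ C → i ∉ T → M i j = 0) : M.det = 0 := by
  rw [Matrix.det_apply]
  refine Finset.sum_eq_zero (fun σ _ => ?_)
  have hex : ∃ j ∈ C, σ j ∉ T := by
    by_contra hcon
    push Not at hcon
    have h1 : C.image σ ⊆ T := by
      intro i hi
      obtain ⟨j, hj, rfl⟩ := Finset.mem_image.1 hi
      exact hcon j hj
    have h2 := Finset.card_le_card h1
    rw [Finset.card_image_of_injective _ σ.injective] at h2
    omega
  obtain ⟨j, hj, hT⟩ := hex
  have h2 : ∏ i, M (σ i) i = 0 := Finset.prod_eq_zero (Finset.mem_univ j) (h _ _ hj hT)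
  rw [h2, smul_zero]

/-- Passing from stage `p + 1` to stage `p`: one more parameter is switched on, for finitely many
patterns at the same time. In a step the determinant is either continuous (winner) or `t` times a
continuous family (loser). -/
theorem hierarchy_step {I : Type*} [Finite I] (D : I → ℝ → AddMonoidAlgebra ℂ G)
    (D0 : I → AddMonoidAlgebra ℂ G)
    (hstep : ∀ T, ∃ f ∈ CC (G := G), f 0 = D0 T ∧
      ∀ t, t ≠ 0 → (D T t = f t ∨ D T t = AddMonoidAlgebra.single 0 (t : ℂ) * f t))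
    (h0 : ∀ T, DomAt (D0 T)) {η : ℝ} (hη : 0 < η) :
    ∃ t, 0 < t ∧ t < η ∧ ∀ T, DomAt (D T t) := by
  choose f hf hf0 hfD using hstep
  have h1 : ∀ T, ∀ᶠ t in 𝓝 (0 : ℝ), DomAt (f T t) := fun T =>
    eventually_domAt (hf T) (by rw [hf0]; exact h0 T)
  have h2 : ∀ᶠ t in 𝓝 (0 : ℝ), ∀ T, DomAt (f T t) := Filter.eventually_all.2 h1
  have h3 : ∀ᶠ t in 𝓝[>] (0 : ℝ), (∀ T, DomAt (f T t)) ∧ 0 < t ∧ t < η := by
    filter_upwards [nhdsWithin_le_nhds h2, self_mem_nhdsWithin,
      nhdsWithin_le_nhds (Iio_mem_nhds hη)] with t ht ht0 ht1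
    exact ⟨ht, ht0, ht1⟩
  obtain ⟨t, ht, ht0, ht1⟩ := h3.exists
  refine ⟨t, ht0, ht1, fun T => ?_⟩
  rcases hfD T t ht0.ne' with h4 | h4
  · rw [h4]
    exact ht T
  · rw [h4]
    exact domAt_smul (by exact_mod_cast ht0.ne') (ht T)

/-- The whole hierarchy of parameters. `D T p ε` is the determinant of the pattern `T` at stage `p`
(parameters with index `< p` switched off); it only depends on `ε q`, `q ≥ p`. -/
theorem hierarchy {I : Type*} [Finite I] (Q : ℕ) (D : I → ℕ → (ℕ → ℝ) → AddMonoidAlgebra ℂ G)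
    (hbase : ∀ T ε, DomAt (D T Q ε))
    (hstep : ∀ T p ε, p < Q → ∃ f ∈ CC (G := G), f 0 = D T (p + 1) ε ∧
      ∀ t, t ≠ 0 → (D T p (Function.update ε p t) = f t ∨
        D T p (Function.update ε p t) = AddMonoidAlgebra.single 0 (t : ℂ) * f t))
    {η : ℝ} (hη : 0 < η) :
    ∃ ε : ℕ → ℝ, (∀ q, 0 < ε q ∧ ε q < η) ∧ ∀ T, DomAt (D T 0 ε) := by
  have key : ∀ k, k ≤ Q → ∃ ε : ℕ → ℝ, (∀ q, 0 < ε q ∧ ε q < η) ∧ ∀ T, DomAt (D T (Q - k) ε) := by
    intro k
    induction k with
    | zero =>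
      intro _
      exact ⟨fun _ => η / 2, fun _ => ⟨by positivity, by linarith⟩, fun T => by
        simpa using hbase T _⟩
    | succ k ih =>
      intro hk
      obtain ⟨ε, hε, hD⟩ := ih (by omega)
      have hp : Q - (k + 1) + 1 = Q - k := by omega
      have hlt : Q - (k + 1) < Q := by omega
      obtain ⟨t, ht0, ht1, ht⟩ := hierarchy_step
        (fun T t => D T (Q - (k + 1)) (Function.update ε (Q - (k + 1)) t))
        (fun T => D T (Q - k) ε)
        (fun T => by
          have := hstep T (Q - (k + 1)) ε hlt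
          rwa [hp] at this) hD hη
      refine ⟨Function.update ε (Q - (k + 1)) t, fun q => ?_, ht⟩
      by_cases hq : q = Q - (k + 1)
      · subst hq
        rw [Function.update_self]
        exact ⟨ht0, ht1⟩
      · rw [Function.update_of_ne hq]
        exact hε q
  obtain ⟨ε, hε, hD⟩ := key Q le_rfl
  refine ⟨ε, hε, fun T => ?_⟩
  simpa using hD T

end Pool.Agent.Helper7.GDom
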