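import Pool.Agent.Helper7.GDom

set_option autoImplicit false
open Set Pool.Agent.MP7c5cdb Filter Pool.Agent.Helper7.GDom
open scoped Topology

namespace Pool.Agent.Helper7.GPat

/-- Combinatorial data of the design: `k` components, `Γ` groups in their order, `E` links with `l`
columns each, `μ j` mains in the component `j`, `n g` columns of the group `g`, the first `lam g` of
them special; `iota` attaches to each group column a main of its component. -/
structure Des where
  k : ℕ
  Γ : ℕ
  E : ℕ
  l : ℕ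
  comp : Fin Γ → Fin k
  μ : Fin k → ℕ
  n : Fin Γ → ℕ
  lam : Fin Γ → ℕ
  iota : (g : Fin Γ) → Fin (n g) → Fin (μ (comp g))
  iota_inj : ∀ g, Function.Injective (iota g)
  spec_inj : ∀ (g g' : Fin Γ) (a : Fin (n g)) (a' : Fin (n g')), a.1 < lam g → a'.1 < lam g' →
    (⟨comp g, iota g a⟩ : (j : Fin k) × Fin (μ j)) = ⟨comp g', iota g' a'⟩ → g = g'

namespace Des

variable (D : Des)

/-- the mains -/
abbrev Main : Type := (j : Fin D.k) × Fin (D.μ j)
/-- the group columns -/
abbrev Grp : Type := (g : Fin D.Γ) × Fin (D.n g)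
/-- the link columns -/
abbrev Lnk : Type := Fin D.E × Fin D.l
/-- the free parameters -/
abbrev Var : Type := D.Main ⊕ D.Lnk
/-- the columns -/
abbrev Col : Type := D.Main ⊕ (D.Grp ⊕ D.Lnk)
/-- the positions: roots, group positions, links -/
abbrev Pos : Type := Fin D.k ⊕ (Fin D.Γ ⊕ Fin D.E)

/-- position of a column -/
def pos : D.Col → D.Pos
  | .inl v => .inl v.1
  | .inr (.inl c) => .inr (.inl c.1)
  | .inr (.inr c) => .inr (.inr c.1)

/-- The main attached to a group column. -/
def mainOf (c : D.Grp) : D.Main := ⟨D.comp c.1, D.iota c.1 c.2⟩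

/-- parameter (without perturbation) of a column -/
def var : D.Col → D.Var
  | .inl v => .inl v
  | .inr (.inl c) => .inl (D.mainOf c)
  | .inr (.inr c) => .inr c

/-- A bound for the number of specials of a group. -/
def Λ : ℕ := ∑ g, D.lam g

lemma lam_le (g : Fin D.Γ) : D.lam g ≤ D.Λ :=
  Finset.single_le_sum (f := D.lam) (fun _ _ => Nat.zero_le _) (Finset.mem_univ g)

/-- Index of the perturbation of a special. -/
def code (c : D.Grp) : ℕ := c.1.1 * D.Λ + c.2.1

/-- Is the group column special? -/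
def Spec (c : D.Grp) : Prop := c.2.1 < D.lam c.1

instance (c : D.Grp) : Decidable (D.Spec c) := by unfold Spec; infer_instance

lemma code_inj {c c' : D.Grp} (h : D.Spec c) (h' : D.Spec c') (hc : D.code c = D.code c') :
    c = c' := by
  obtain ⟨g, a⟩ := c
  obtain ⟨g', a'⟩ := c'
  have h1 : a.1 < D.Λ := lt_of_lt_of_le h (D.lam_le g)
  have h2 : a'.1 < D.Λ := lt_of_lt_of_le h' (D.lam_le g')
  simp only [code] at hc
  have hΛ : 0 < D.Λ := by omega
  have hg : g.1 = g'.1 := by
    have e1 : (g.1 * D.Λ + a.1) / D.Λ = g.1 := by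
      rw [mul_comm, Nat.mul_add_div hΛ, Nat.div_eq_of_lt h1, add_zero]
    have e2 : (g'.1 * D.Λ + a'.1) / D.Λ = g'.1 := by
      rw [mul_comm, Nat.mul_add_div hΛ, Nat.div_eq_of_lt h2, add_zero]
    rw [← e1, ← e2, hc]
  have hg' : g = g' := Fin.ext hg
  subst hg'
  have ha : a = a' := Fin.ext (by omega)
  rw [ha]

lemma code_lt {c : D.Grp} (h : D.Spec c) : D.code c < D.Γ * D.Λ := by
  obtain ⟨g, a⟩ := c
  have h1 : a.1 < D.Λ := lt_of_lt_of_le h (D.lam_le g)
  have h2 : g.1 + 1 ≤ D.Γ := g.2
  simp only [code]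
  calc g.1 * D.Λ + a.1 < g.1 * D.Λ + D.Λ := by omega
    _ = (g.1 + 1) * D.Λ := by ring
    _ ≤ D.Γ * D.Λ := Nat.mul_le_mul_right _ h2

/-- Specials of earlier groups have smaller codes. -/
lemma code_lt_of_fst_lt {c c' : D.Grp} (h : D.Spec c) (hlt : c.1 < c'.1) :
    D.code c < D.code c' := by
  obtain ⟨g, a⟩ := c
  obtain ⟨g', a'⟩ := c'
  have h1 : a.1 < D.Λ := lt_of_lt_of_le h (D.lam_le g)
  have h2 : g.1 + 1 ≤ g'.1 := hlt
  simp only [code]
  calc g.1 * D.Λ + a.1 < g.1 * D.Λ + D.Λ := by omega
    _ = (g.1 + 1) * D.Λ := by ring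
    _ ≤ g'.1 * D.Λ := Nat.mul_le_mul_right _ h2
    _ ≤ g'.1 * D.Λ + a'.1 := Nat.le_add_right _ _

/-- parameter of a column, with the perturbations -/
def par (θ : D.Var → ℝ) (ε : ℕ → ℝ) : D.Col → ℝ
  | .inl v => θ (.inl v)
  | .inr (.inl c) => θ (.inl (D.mainOf c)) + if D.Spec c then ε (D.code c) else 0
  | .inr (.inr c) => θ (.inr c)

end Des

variable {G : Type} [AddCommGroup G]

/-- Entry of a row at a position: `some (π, n)` means that the row sees the position with Bloch
exponent `π` and character exponent `n`. -/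
noncomputable def ent (s : Option (G × ℤ)) (t : ℝ) : AddMonoidAlgebra ℂ G :=
  match s with
  | none => 0
  | some q => AddMonoidAlgebra.single q.1 (ee (t * (q.2 : ℝ)))

/-- The difference quotient of an entry. -/
noncomputable def quo (s : Option (G × ℤ)) (t0 t : ℝ) : AddMonoidAlgebra ℂ G :=
  match s with
  | none => 0
  | some q => AddMonoidAlgebra.single q.1 (dslope (fun t => ee ((t0 + t) * (q.2 : ℝ))) 0 t)

/-- What one row class of a fibre sees. -/
structure Pat (D : Des) (G : Type) [AddCommGroup G] (Row : Type) where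
  see : Row → D.Pos → Option (G × ℤ)
  lab : Row → Fin D.Γ ⊕ Fin D.k
  num : Row → ℤ
  grp_self : ∀ r g, lab r = .inl g →
    (see r (.inr (.inl g)) = some (0, num r) ∧ see r (.inl (D.comp g)) = none) ∨
    (see r (.inr (.inl g)) = none ∧ see r (.inl (D.comp g)) = some (0, num r))
  grp_lt : ∀ r g g', lab r = .inl g → g' < g →
    see r (.inr (.inl g')) = see r (.inl (D.comp g'))
  top_grp : ∀ r j g', lab r = .inr j →
    see r (.inr (.inl g')) = see r (.inl (D.comp g'))
  top_root : ∀ r j j', lab r = .inr j →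
    see r (.inl j') = if j' = j then some (0, num r) else none
  top_link : ∀ r j e, lab r = .inr j →
    see r (.inr (.inr e)) = none ∨ see r (.inr (.inr e)) = some (0, num r)

namespace Pat

variable {D : Des} {Row : Type} (T : Pat D G Row)

/-- The fibre matrix of the pattern. -/
noncomputable def mat (θ : D.Var → ℝ) (ε : ℕ → ℝ) (r : Row) (c : D.Col) : AddMonoidAlgebra ℂ G :=
  ent (T.see r (D.pos c)) (D.par θ ε c)

variable [Fintype Row] [DecidableEq Row]

/-- Number of rows of the group `g`. -/
def cnt (g : Fin D.Γ) : ℕ := (Finset.univ.filter (fun r => T.lab r = .inl g)).card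

/-- Number of winners of the group `g`. -/
def win (g : Fin D.Γ) : ℕ := T.cnt g - (D.n g - D.lam g)

/-- Is the group column a loser? -/
def Loser (c : D.Grp) : Prop := D.Spec c ∧ T.win c.1 ≤ c.2.1

instance (c : D.Grp) : Decidable (T.Loser c) := by unfold Loser; infer_instance

/-- Block of a column. -/
def blab : D.Col → Fin (D.Γ + 1)
  | .inl _ => Fin.last _
  | .inr (.inl c) => if T.Loser c then Fin.last _ else c.1.castSucc
  | .inr (.inr _) => Fin.last _

/-- Block of a row. -/
def rlab (r : Row) : Fin (D.Γ + 1) :=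
  match T.lab r with
  | .inl g => g.castSucc
  | .inr _ => Fin.last _

/-- The matrix at stage `p`: the perturbations with index `< p` are decided. -/
noncomputable def stg (θ : D.Var → ℝ) (ε : ℕ → ℝ) (p : ℕ) (r : Row) :
    D.Col → AddMonoidAlgebra ℂ G
  | .inl v => ent (T.see r (.inl v.1)) (θ (.inl v))
  | .inr (.inl c) =>
      if D.Spec c ∧ p ≤ D.code c then
        ent (T.see r (.inr (.inl c.1))) (θ (.inl (D.mainOf c)) + ε (D.code c)) -
          ent (T.see r (.inl (D.comp c.1))) (θ (.inl (D.mainOf c)))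
      else if T.Loser c then
        quo (T.see r (.inr (.inl c.1))) (θ (.inl (D.mainOf c))) 0
      else
        ent (T.see r (.inr (.inl c.1))) (θ (.inl (D.mainOf c))) -
          ent (T.see r (.inl (D.comp c.1))) (θ (.inl (D.mainOf c)))
  | .inr (.inr c) => ent (T.see r (.inr (.inr c.1))) (θ (.inr c))

end Pat

/-- Complex entry, Bloch exponents forgotten. -/
noncomputable def cent (s : Option (G × ℤ)) (t : ℝ) : ℂ :=
  match s with
  | none => 0
  | some q => ee (t * (q.2 : ℝ))

/-- Complex derivative entry. -/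
noncomputable def cquo (s : Option (G × ℤ)) (t : ℝ) : ℂ :=
  match s with
  | none => 0
  | some q => 2 * (Real.pi : ℂ) * Complex.I * (q.2 : ℂ) * ee (t * (q.2 : ℝ))

lemma hasDerivAt_ee (t0 : ℝ) (n : ℤ) (t : ℝ) :
    HasDerivAt (fun t : ℝ => ee ((t0 + t) * (n : ℝ)))
      (2 * (Real.pi : ℂ) * Complex.I * (n : ℂ) * ee ((t0 + t) * (n : ℝ))) t := by
  unfold ee
  have h1 : HasDerivAt (fun t : ℝ => 2 * (Real.pi : ℂ) * Complex.I * (((t0 + t) * (n : ℝ) : ℝ) : ℂ))
      (2 * (Real.pi : ℂ) * Complex.I * (n : ℂ)) t := by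
    have h2 : HasDerivAt (fun t : ℝ => (((t0 + t) * (n : ℝ) : ℝ) : ℂ)) ((n : ℂ)) t := by
      have h3 : HasDerivAt (fun t : ℝ => (t0 + t) * (n : ℝ)) (n : ℝ) t := by
        simpa using ((hasDerivAt_id t).const_add t0).mul_const (n : ℝ)
      simpa using h3.ofReal_comp
    exact h2.const_mul _
  convert h1.cexp using 1
  ring

lemma quo_zero (s : Option (G × ℤ)) (t0 : ℝ) :
    quo s t0 0 = match s with
      | none => 0
      | some q => AddMonoidAlgebra.single q.1
          (2 * (Real.pi : ℂ) * Complex.I * (q.2 : ℂ) * ee (t0 * (q.2 : ℝ))) := by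
  unfold quo
  cases s with
  | none => rfl
  | some q =>
    simp only
    rw [dslope_same, (hasDerivAt_ee t0 q.2 0).deriv, add_zero]

/-- Difference quotients. -/
lemma ent_sub (s : Option (G × ℤ)) (t0 t : ℝ) :
    ent s (t0 + t) = ent s t0 + AddMonoidAlgebra.single 0 (t : ℂ) * quo s t0 t := by
  unfold ent quo
  cases s with
  | none => simp
  | some q =>
    simp only
    rw [AddMonoidAlgebra.single_mul_single, zero_add, ← AddMonoidAlgebra.single_add]
    congr 1
    have h := sub_smul_dslope (fun t => ee ((t0 + t) * (q.2 : ℝ))) 0 t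
    simp only [sub_zero, add_zero] at h
    rw [Complex.real_smul] at h
    rw [h]
    ring

lemma const_mem (x : AddMonoidAlgebra ℂ G) : (fun _ : ℝ => x) ∈ CC (G := G) := by
  classical
  induction x using AddMonoidAlgebra.induction_linear with
  | zero => exact Subring.zero_mem _
  | add f g hf hg => exact Subring.add_mem _ hf hg
  | single a b => exact single_mem a continuousAt_const

lemma ent_mem (s : Option (G × ℤ)) (t0 : ℝ) : (fun t => ent s (t0 + t)) ∈ CC (G := G) := by
  unfold ent
  cases s with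
  | none => exact Subring.zero_mem _
  | some q =>
    refine single_mem q.1 ?_
    exact (hasDerivAt_ee t0 q.2 0).continuousAt

lemma quo_mem (s : Option (G × ℤ)) (t0 : ℝ) : (fun t => quo s t0 t) ∈ CC (G := G) := by
  unfold quo
  cases s with
  | none => exact Subring.zero_mem _
  | some q =>
    refine single_mem q.1 ?_
    rw [continuousAt_dslope_same]
    exact (hasDerivAt_ee t0 q.2 0).differentiableAt

/-- Subtracting from the columns on the right combinations of the columns on the left. -/
lemma det_colop {R M N : Type*} [CommRing R] [Fintype M] [DecidableEq M] [Fintype N]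
    [DecidableEq N] (A A' : Matrix (M ⊕ N) (M ⊕ N) R) (B : Matrix M N R)
    (h1 : ∀ i v, A' i (.inl v) = A i (.inl v))
    (h2 : ∀ i x, A' i (.inr x) = A i (.inr x) - ∑ v, A i (.inl v) * B v x) : A'.det = A.det := by
  have h : A' = A * Matrix.fromBlocks 1 (-B) 0 1 := by
    ext i x
    rw [Matrix.mul_apply, Fintype.sum_sum_type]
    cases x with
    | inl v =>
      rw [h1]
      simp [Matrix.one_apply]
    | inr x =>
      rw [h2]
      simp [Matrix.one_apply]
      ring
  rw [h, Matrix.det_mul, Matrix.det_fromBlocks_zero₂₁]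
  simp

end Pool.Agent.Helper7.GPat
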